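import Pool.Agent.H12.KP.Targets4

/-!
# Project KEW, row WAG (helper74): weak approximation by homogeneous fractions
-/

namespace Pool.Agent.H74.KP

open Pool.Agent.H12.KP Polynomial TensorProduct

universe u v

section

variable {A : Type u} {D : Type u} [CommRing A] [CommRing D] [IsDomain D] [Algebra A D]
  (𝒟 : ℕ → Submodule A D) [GradedAlgebra 𝒟]

theorem wag_cancel {w R : D} {i j : ℕ} (hw : w ∈ 𝒟 i) (hw0 : w ≠ 0)
    (h : w * R ∈ 𝒟 (i + j)) : R ∈ 𝒟 j := by
  have h1 : (DirectSum.decompose 𝒟 (w * R) (i + j) : D) = w * DirectSum.decompose 𝒟 R j :=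
    DirectSum.coe_decompose_mul_add_of_left_mem 𝒟 hw
  rw [DirectSum.decompose_of_mem_same 𝒟 h] at h1
  have h2 := mul_left_cancel₀ hw0 h1
  rw [h2]
  exact SetLike.coe_mem _

omit [IsDomain D] in
theorem wag_pair (z z' : Ideal D) (hz : z.IsPrime) (hz' : z'.IsPrime) (w : D) {e : ℕ}
    (hw : w ∈ 𝒟 e) (h : ∀ P : Ideal D, P.IsPrime → w ∈ P → P ≤ z → ¬ P ≤ z') :
    ∃ (i j : ℕ) (s t : D), s ∈ 𝒟 i ∧ t ∈ 𝒟 j ∧ s ∉ z ∧ t ∉ z' ∧ w ∣ s * t := by
  classical
  let S : Submonoid D :=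
    { carrier := {x | ∃ (i j : ℕ) (s t : D), s ∈ 𝒟 i ∧ t ∈ 𝒟 j ∧ s ∉ z ∧ t ∉ z' ∧ x = s * t}
      one_mem' := ⟨0, 0, 1, 1, SetLike.one_mem_graded 𝒟, SetLike.one_mem_graded 𝒟,
         (Ideal.ne_top_iff_one z).1 hz.ne_top, (Ideal.ne_top_iff_one z').1 hz'.ne_top,
         (mul_one 1).symm⟩
      mul_mem' := by
        rintro x y ⟨i, j, s, t, h1, h2, h3, h4, rfl⟩ ⟨i', j', s', t', h1', h2', h3', h4', rfl⟩
        refine ⟨i + i', j + j', s * s', t * t', SetLike.mul_mem_graded h1 h1',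
          SetLike.mul_mem_graded h2 h2', fun hh => (hz.mem_or_mem hh).elim h3 h3',
          fun hh => (hz'.mem_or_mem hh).elim h4 h4', by ring⟩ }
  by_contra hcon
  push Not at hcon
  have hdis : Disjoint (Ideal.span {w} : Set D) (S : Set D) := by
    rw [Set.disjoint_left]
    rintro x hx ⟨i, j, s, t, h1, h2, h3, h4, rfl⟩
    exact hcon i j s t h1 h2 h3 h4 (Ideal.mem_span_singleton.1 hx)
  obtain ⟨P, hP, hle, hPS⟩ := Ideal.exists_le_prime_disjoint _ S hdis
  have hc : (P.homogeneousCore 𝒟).toIdeal.IsPrime := hP.homogeneousCore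
  have hcP := Ideal.toIdeal_homogeneousCore_le 𝒟 P
  have hwP : w ∈ P := hle (Ideal.mem_span_singleton_self w)
  have hw' : w ∈ (P.homogeneousCore 𝒟).toIdeal :=
    Ideal.mem_homogeneousCore_of_homogeneous_of_mem ⟨e, hw⟩ hwP
  have key : ∀ Q : Ideal D, (∀ (i : ℕ) (x : D), x ∈ 𝒟 i → x ∈ P → x ∈ Q) →
      (P.homogeneousCore 𝒟).toIdeal ≤ Q := by
    intro Q hQ x hx
    rw [← DirectSum.sum_support_decompose 𝒟 x]
    refine Ideal.sum_mem _ fun j _ => ?_
    exact hQ j _ (SetLike.coe_mem _) (hcP ((P.homogeneousCore 𝒟).isHomogeneous j hx))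
  refine h _ hc hw' (key z ?_) (key z' ?_)
  · intro i x hx hxP
    by_contra hxz
    exact Set.disjoint_left.1 hPS hxP ⟨i, 0, x, 1, hx, SetLike.one_mem_graded 𝒟, hxz,
      (Ideal.ne_top_iff_one z').1 hz'.ne_top, (mul_one x).symm⟩
  · intro i x hx hxP
    by_contra hxz
    exact Set.disjoint_left.1 hPS hxP ⟨0, i, 1, x, SetLike.one_mem_graded 𝒟, hx,
      (Ideal.ne_top_iff_one z).1 hz.ne_top, hxz, (one_mul x).symm⟩

omit [IsDomain D] in
theorem wag_common {ι : Type*} (z' : Ideal D) (hz' : z'.IsPrime) (Q : ι → D → Prop)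
    (hQ : ∀ i t u, Q i t → Q i (t * u)) (Z : Finset ι)
    (h : ∀ i ∈ Z, ∃ j, ∃ t ∈ 𝒟 j, t ∉ z' ∧ Q i t) :
    ∃ j, ∃ t ∈ 𝒟 j, t ∉ z' ∧ ∀ i ∈ Z, Q i t := by
  classical
  induction Z using Finset.induction_on with
  | empty =>
    exact ⟨0, 1, SetLike.one_mem_graded 𝒟, (Ideal.ne_top_iff_one z').1 hz'.ne_top, by simp⟩
  | insert a Z _ ih =>
    obtain ⟨j, t, ht, htz, hq⟩ := ih fun i hi => h i (Finset.mem_insert_of_mem hi)
    obtain ⟨j', t', ht', htz', hq'⟩ := h a (Finset.mem_insert_self a Z)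
    refine ⟨j + j', t * t', SetLike.mul_mem_graded ht ht',
      fun hh => (hz'.mem_or_mem hh).elim htz htz', ?_⟩
    intro i hi
    rcases Finset.mem_insert.1 hi with rfl | hi
    · rw [mul_comm]
      exact hQ _ _ _ hq'
    · exact hQ _ _ _ (hq i hi)

end

/-- WAG: weak approximation by homogeneous fractions. -/
theorem pf_WAG : S_WAG.{u} := by
  classical
  intro A D _ _ _ _ _ 𝒟 _ L _ _ _ π hπ n hn Z m a c hrel hac hP
  set p : D := algebraMap A D π with hpdef
  have hp0 : p ∈ 𝒟 0 := SetLike.algebraMap_mem_graded 𝒟 π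
  rcases Z.eq_empty_or_nonempty with rfl | hne
  · exact ⟨0, 1, 1, SetLike.one_mem_graded 𝒟, SetLike.one_mem_graded 𝒟, one_ne_zero,
      one_ne_zero, by simp⟩
  -- the elements w
  set w : Ideal D → D := fun z => p ^ n * (a z * c z) with hwdef
  have hpn : p ^ n ∈ 𝒟 0 := by
    have := SetLike.pow_mem_graded n hp0
    rwa [smul_zero] at this
  have hw : ∀ z ∈ Z, w z ∈ 𝒟 (m z + m z) := by
    intro z hz
    have h1 := SetLike.mul_mem_graded hpn
      (SetLike.mul_mem_graded (hac z hz).1 (hac z hz).2.1)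
    rwa [zero_add] at h1
  have hw0 : ∀ z ∈ Z, w z ≠ 0 := fun z hz =>
    mul_ne_zero (pow_ne_zero n hπ) (mul_ne_zero (hac z hz).2.2.1 (hac z hz).2.2.2)
  have hpair : ∀ z ∈ Z, ∀ z' ∈ Z, z ≠ z' →
      ∃ (i j : ℕ) (s t : D), s ∈ 𝒟 i ∧ t ∈ 𝒟 j ∧ s ∉ z ∧ t ∉ z' ∧ w z ∣ s * t := by
    intro z hz z' hz' hzz
    refine wag_pair 𝒟 z z' (hrel z hz).1.1 (hrel z' hz').1.1 (w z) (hw z hz) ?_
    intro P hPp hwP hPz
    refine hP z hz z' hz' hzz P hPp ?_ hPz
    rcases hPp.mem_or_mem hwP with h1 | h1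
    · exact P.mul_mem_right _ (hPp.mem_of_pow_mem n h1)
    · exact P.mul_mem_left _ h1
  -- the elements t
  have ht : ∀ z' ∈ Z, ∃ j, ∃ t ∈ 𝒟 j, t ∉ z' ∧ ∀ z ∈ Z.erase z',
      ∃ i, ∃ s ∈ 𝒟 i, s ∉ z ∧ w z ∣ s * t := by
    intro z' hz'
    refine wag_common 𝒟 z' (hrel z' hz').1.1
      (fun z t => ∃ i, ∃ s ∈ 𝒟 i, s ∉ z ∧ w z ∣ s * t) ?_ (Z.erase z') ?_
    · rintro i t u ⟨k, s, hs, hsz, hd⟩
      exact ⟨k, s, hs, hsz, by rw [← mul_assoc]; exact hd.mul_right u⟩
    · intro z hz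
      obtain ⟨i, j, s, t, h1, h2, h3, h4, h5⟩ :=
        hpair z (Finset.mem_of_mem_erase hz) z' hz' (Finset.ne_of_mem_erase hz)
      exact ⟨j, t, h2, h4, i, s, h1, h3, h5⟩
  choose! j t ht1 ht2 ht3 using ht
  have hv : ∀ z ∈ Z, ∃ v ∈ 𝒟 1, v ∉ z := by
    intro z hz
    have h1 := (hrel z hz).1.2.2
    rw [Set.not_subset] at h1
    obtain ⟨v, hv, hvz⟩ := h1
    exact ⟨v, hv, hvz⟩
  choose! v hv1 hv2 using hv
  set K : ℕ := ∑ z ∈ Z, (j z + (m z + m z)) with hKdef
  have hK : ∀ z ∈ Z, j z + (m z + m z) ≤ K := fun z hz =>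
    Finset.single_le_sum (f := fun z => j z + (m z + m z)) (fun _ _ => Nat.zero_le _) hz
  set E : Ideal D → D := fun z => t z * v z ^ (K - m z - j z) with hEdef
  have hE1 : ∀ z ∈ Z, E z ∈ 𝒟 (K - m z) := by
    intro z hz
    have h1 := SetLike.mul_mem_graded (ht1 z hz)
      (SetLike.pow_mem_graded (K - m z - j z) (hv1 z hz))
    have h2 := hK z hz
    have h3 : j z + (K - m z - j z) • 1 = K - m z := by
      rw [smul_eq_mul, mul_one]
      omega
    rwa [h3] at h1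
  have hE2 : ∀ z ∈ Z, E z ∉ z := by
    intro z hz hh
    rcases (hrel z hz).1.1.mem_or_mem hh with h1 | h1
    · exact ht2 z hz h1
    · exact hv2 z hz ((hrel z hz).1.1.mem_of_pow_mem _ h1)
  set f : D := ∑ z ∈ Z, E z * a z with hfdef
  set g : D := ∑ z ∈ Z, E z * c z with hgdef
  have hf : f ∈ 𝒟 K := by
    refine Submodule.sum_mem _ fun z hz => ?_
    have h1 := SetLike.mul_mem_graded (hE1 z hz) (hac z hz).1
    have h2 := hK z hz
    have h3 : K - m z + m z = K := by omega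
    rwa [h3] at h1
  have hg : g ∈ 𝒟 K := by
    refine Submodule.sum_mem _ fun z hz => ?_
    have h1 := SetLike.mul_mem_graded (hE1 z hz) (hac z hz).2.1
    have h2 := hK z hz
    have h3 : K - m z + m z = K := by omega
    rwa [h3] at h1
  -- the local analysis
  have hloc : ∀ z ∈ Z, ∃ (b : ℕ) (s N1 N2 U : D), s ∉ z ∧ N1 ∉ z ∧ N2 ∉ z ∧
      N2 ∈ 𝒟 b ∧ U ∈ 𝒟 b ∧ N1 = N2 + p ^ n * U ∧
      s * (f * c z) = a z * c z * N1 ∧ s * (g * a z) = a z * c z * N2 := by
    intro z hz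
    have hzp := (hrel z hz).1.1
    obtain ⟨b, s, hs, hsz, hdiv⟩ := wag_common 𝒟 z hzp
      (fun z' s => w z ∣ s * E z') (by
        intro i t u hd
        have h1 : t * u * E i = (t * E i) * u := by ring
        rw [h1]
        exact hd.mul_right u) (Z.erase z) (by
        intro z' hz'
        have hz'Z := Finset.mem_of_mem_erase hz'
        have hne' := Finset.ne_of_mem_erase hz'
        obtain ⟨i, s, h1, h2, h3⟩ := ht3 z' hz'Z z (Finset.mem_erase.2 ⟨hne'.symm, hz⟩)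
        refine ⟨i, s, h1, h2, ?_⟩
        have h4 : s * E z' = (s * t z') * v z' ^ (K - m z' - j z') := by
          rw [hEdef]; ring
        rw [h4]
        exact h3.mul_right _)
    choose! r hr using hdiv
    set R1 : D := ∑ z' ∈ Z.erase z, r z' * a z' with hR1
    set R2 : D := ∑ z' ∈ Z.erase z, r z' * c z' with hR2
    have hsum : ∀ q : Ideal D → D, s * ∑ z' ∈ Z, E z' * q z' =
        s * E z * q z + w z * ∑ z' ∈ Z.erase z, r z' * q z' := by
      intro q
      have hcong : ∀ z' ∈ Z.erase z, s * (E z' * q z') = w z * (r z' * q z') := by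
        intro z' hz'
        rw [← mul_assoc, hr z' hz', mul_assoc]
      rw [← Finset.add_sum_erase Z (fun z' => E z' * q z') hz, mul_add, Finset.mul_sum,
        Finset.mul_sum, Finset.sum_congr rfl hcong]
      exact congrArg (· + _) (mul_assoc _ _ _).symm
    have hsf : s * f = s * E z * a z + w z * R1 := hsum a
    have hsg : s * g = s * E z * c z + w z * R2 := hsum c
    have hKz := hK z hz
    have hdeg1 : s * E z * a z ∈ 𝒟 (b + K) := by
      have h1 := SetLike.mul_mem_graded (SetLike.mul_mem_graded hs (hE1 z hz)) (hac z hz).1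
      have h3 : b + (K - m z) + m z = b + K := by omega
      rwa [h3] at h1
    have hdeg2 : s * E z * c z ∈ 𝒟 (b + K) := by
      have h1 := SetLike.mul_mem_graded (SetLike.mul_mem_graded hs (hE1 z hz)) (hac z hz).2.1
      have h3 : b + (K - m z) + m z = b + K := by omega
      rwa [h3] at h1
    have hR1m : R1 ∈ 𝒟 (b + K - (m z + m z)) := by
      refine wag_cancel 𝒟 (hw z hz) (hw0 z hz) ?_
      have h1 : w z * R1 = s * f - s * E z * a z := by rw [hsf]; ring
      have h3 : m z + m z + (b + K - (m z + m z)) = b + K := by omega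
      rw [h1, h3]
      exact Submodule.sub_mem _ (SetLike.mul_mem_graded hs hf) hdeg1
    have hR2m : R2 ∈ 𝒟 (b + K - (m z + m z)) := by
      refine wag_cancel 𝒟 (hw z hz) (hw0 z hz) ?_
      have h1 : w z * R2 = s * g - s * E z * c z := by rw [hsg]; ring
      have h3 : m z + m z + (b + K - (m z + m z)) = b + K := by omega
      rw [h1, h3]
      exact Submodule.sub_mem _ (SetLike.mul_mem_graded hs hg) hdeg2
    have hcR : c z * R1 ∈ 𝒟 (b + (K - m z)) := by
      have h1 := SetLike.mul_mem_graded (hac z hz).2.1 hR1m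
      have h3 : m z + (b + K - (m z + m z)) = b + (K - m z) := by omega
      rwa [h3] at h1
    have haR : a z * R2 ∈ 𝒟 (b + (K - m z)) := by
      have h1 := SetLike.mul_mem_graded (hac z hz).1 hR2m
      have h3 : m z + (b + K - (m z + m z)) = b + (K - m z) := by omega
      rwa [h3] at h1
    have hsE : s * E z ∉ z := fun hh => (hzp.mem_or_mem hh).elim hsz (hE2 z hz)
    have hpz : p ^ n ∈ z := Ideal.pow_mem_of_mem z (hrel z hz).2 n hn
    have hnot : ∀ x : D, s * E z + p ^ n * x ∉ z := by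
      intro x hx
      exact hsE ((Ideal.add_mem_iff_left z (z.mul_mem_right x hpz)).1 hx)
    refine ⟨b + (K - m z), s, s * E z + p ^ n * (c z * R1), s * E z + p ^ n * (a z * R2),
      c z * R1 - a z * R2, hsz, hnot _, hnot _, ?_, Submodule.sub_mem _ hcR haR, by ring,
      ?_, ?_⟩
    · refine Submodule.add_mem _ (SetLike.mul_mem_graded hs (hE1 z hz)) ?_
      have h1 := SetLike.mul_mem_graded hpn haR
      rwa [zero_add] at h1
    · have h1 : s * (f * c z) = (s * f) * c z := by ring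
      rw [h1, hsf, hwdef]
      ring
    · have h1 : s * (g * a z) = (s * g) * a z := by ring
      rw [h1, hsg, hwdef]
      ring
  have hf0 : f ≠ 0 := by
    obtain ⟨z, hz⟩ := hne
    obtain ⟨b, s, N1, N2, U, h1, h2, h3, h4, h5, h6, h7, h8⟩ := hloc z hz
    intro h0
    rw [h0, zero_mul, mul_zero] at h7
    have hN : N1 ≠ 0 := fun hh => h2 (hh ▸ z.zero_mem)
    exact mul_ne_zero (mul_ne_zero (hac z hz).2.2.1 (hac z hz).2.2.2) hN h7.symm
  have hg0 : g ≠ 0 := by
    obtain ⟨z, hz⟩ := hne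
    obtain ⟨b, s, N1, N2, U, h1, h2, h3, h4, h5, h6, h7, h8⟩ := hloc z hz
    intro h0
    rw [h0, zero_mul, mul_zero] at h8
    have hN : N2 ≠ 0 := fun hh => h3 (hh ▸ z.zero_mem)
    exact mul_ne_zero (mul_ne_zero (hac z hz).2.2.1 (hac z hz).2.2.2) hN h8.symm
  refine ⟨K, f, g, hf, hg, hf0, hg0, ?_⟩
  intro z hz
  obtain ⟨b, s, N1, N2, U, h1, h2, h3, h4, h5, h6, h7, h8⟩ := hloc z hz
  have hinj := IsFractionRing.injective D L
  have hmap : ∀ x : D, x ≠ 0 → algebraMap D L x ≠ 0 := fun x hx hh =>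
    hx (hinj (by rw [hh, map_zero]))
  have hs0 : s ≠ 0 := fun hh => h1 (hh ▸ z.zero_mem)
  have hN2 : N2 ≠ 0 := fun hh => h3 (hh ▸ z.zero_mem)
  have hN2L := hmap N2 hN2
  have hsL := hmap s hs0
  have haL := hmap _ (hac z hz).2.2.1
  have hcL := hmap _ (hac z hz).2.2.2
  have hgL := hmap _ hg0
  refine ⟨algebraMap D L U / algebraMap D L N2, ⟨b, U, h5, N2, h4, h3, ?_⟩, ?_⟩
  · exact div_mul_cancel₀ _ hN2L
  · have e1 : algebraMap D L s * algebraMap D L (f * c z) =
        algebraMap D L (a z * c z) * algebraMap D L N1 := by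
      rw [← map_mul, ← map_mul, h7]
    have e2 : algebraMap D L s * algebraMap D L (g * a z) =
        algebraMap D L (a z * c z) * algebraMap D L N2 := by
      rw [← map_mul, ← map_mul, h8]
    have hac0 : algebraMap D L (a z * c z) ≠ 0 :=
      hmap _ (mul_ne_zero (hac z hz).2.2.1 (hac z hz).2.2.2)
    have e3 : algebraMap D L (f * c z) / algebraMap D L (g * a z) =
        algebraMap D L N1 / algebraMap D L N2 := by
      rw [← mul_div_mul_left _ _ hsL, e1, e2, mul_div_mul_left _ _ hac0]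
    rw [e3, h6, map_add, add_div, div_self hN2L, map_mul, map_pow, mul_div_assoc]

end Pool.Agent.H74.KP
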