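import Pool.Agent.H85.KP.Iface

/-! M0: typical reality and the bound for the last coefficient. -/

set_option autoImplicit false

open Polynomial Complex Set Filter Topology Metric

namespace Pool.Agent.H74.KP

open Pool.Agent.H85.KP

/-- An injective complex polynomial has non-vanishing derivative. -/
theorem derivative_ne_zero_of_injOn {P : ℂ[X]} {U : Set ℂ} (hU : IsOpen U)
    (hinj : InjOn (fun z => P.eval z) U) {z₀ : ℂ} (hz : z₀ ∈ U) : (derivative P).eval z₀ ≠ 0 := by
  intro hd
  set R : ℂ[X] := P - C (P.eval z₀) with hR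
  have hR0 : R ≠ 0 := by
    intro h0
    -- `P` is constant
    have hc : P = C (P.eval z₀) := sub_eq_zero.mp h0
    obtain ⟨ε, hε, hball⟩ := Metric.isOpen_iff.mp hU z₀ hz
    have h1 : z₀ + ((ε / 2 : ℝ) : ℂ) ∈ U := by
      apply hball
      rw [mem_ball, dist_eq_norm, add_sub_cancel_left, Complex.norm_real, Real.norm_eq_abs,
        abs_of_pos (by positivity)]
      linarith
    have h2 := hinj h1 hz (by
      simp only
      rw [hc]; simp)
    have h3 : ((ε / 2 : ℝ) : ℂ) = 0 := by
      have := add_left_cancel (h2.trans (add_zero z₀).symm)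
      exact this
    have h4 : ε / 2 = 0 := by exact_mod_cast h3
    linarith
  have hroot : R.IsRoot z₀ := by simp [hR]
  have hroot' : (derivative R).IsRoot z₀ := by
    simp only [hR, derivative_sub, derivative_C, sub_zero]
    exact hd
  have hm : 1 < R.rootMultiplicity z₀ :=
    (Polynomial.one_lt_rootMultiplicity_iff_isRoot hR0).mpr ⟨hroot, hroot'⟩
  set m := R.rootMultiplicity z₀ with hmdef
  obtain ⟨q, hq, hnd⟩ := Polynomial.exists_eq_pow_rootMultiplicity_mul_and_not_dvd R hR0 z₀
  have hq0 : q.eval z₀ ≠ 0 := by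
    intro h
    exact hnd (Polynomial.dvd_iff_isRoot.mpr h)
  -- the local coordinate
  set g : ℂ → ℂ := fun z => (z - z₀) * Complex.exp (Complex.log (q.eval z / q.eval z₀) / m) with hg
  have hnear : ∀ᶠ z in 𝓝 z₀, q.eval z / q.eval z₀ ∈ Complex.slitPlane := by
    have h1 : ContinuousAt (fun z => q.eval z / q.eval z₀) z₀ :=
      (q.continuous.continuousAt).div_const _
    apply h1.eventually_mem
    apply Complex.isOpen_slitPlane.mem_nhds
    rw [div_self hq0]
    exact Complex.one_mem_slitPlane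
  have hgan : AnalyticAt ℂ g z₀ := by
    have h1 : AnalyticAt ℂ (fun z => q.eval z / q.eval z₀) z₀ :=
      (q.differentiable.analyticAt z₀).div_const
    have h2 : AnalyticAt ℂ (fun z => Complex.log (q.eval z / q.eval z₀)) z₀ :=
      h1.clog hnear.self_of_nhds
    exact (analyticAt_id.sub analyticAt_const).mul (h2.div_const).cexp
  have hg0 : g z₀ = 0 := by simp [hg]
  have hgpow : ∀ᶠ z in 𝓝 z₀, R.eval z = q.eval z₀ * g z ^ m := by
    filter_upwards [hnear] with z hz
    have h1 : Complex.exp (Complex.log (q.eval z / q.eval z₀) / m) ^ m =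
        q.eval z / q.eval z₀ := by
      rw [← Complex.exp_nat_mul]
      have hm0 : (m : ℂ) ≠ 0 := by
        have : m ≠ 0 := by omega
        exact_mod_cast this
      rw [mul_div_cancel₀ _ hm0, Complex.exp_log (Complex.slitPlane_ne_zero hz)]
    rw [hg]
    simp only
    rw [mul_pow, h1]
    conv_lhs => rw [hq]
    simp only [eval_mul, eval_pow, eval_sub, eval_X, eval_C]
    rw [← hmdef]
    field_simp
  rcases hgan.eventually_constant_or_nhds_le_map_nhds with hcst | hopen
  · -- `g` constant near `z₀`: then `R` vanishes near `z₀`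
    have h1 : ∀ᶠ z in 𝓝 z₀, R.eval z = 0 := by
      filter_upwards [hcst, hgpow] with z h1 h2
      rw [h2, h1, hg0, zero_pow (by omega), mul_zero]
    have h2 : R = 0 := by
      apply Polynomial.eq_zero_of_infinite_isRoot
      have h3 : {z | R.eval z = 0} ∈ 𝓝 z₀ := h1
      exact infinite_of_mem_nhds z₀ h3
    exact hR0 h2
  · rw [hg0] at hopen
    have hV : {z | z ∈ U ∧ R.eval z = q.eval z₀ * g z ^ m} ∈ 𝓝 z₀ :=
      inter_mem (hU.mem_nhds hz) hgpow
    have himg : g '' {z | z ∈ U ∧ R.eval z = q.eval z₀ * g z ^ m} ∈ 𝓝 (0:ℂ) :=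
      hopen (image_mem_map hV)
    obtain ⟨ε, hε, hball⟩ := Metric.mem_nhds_iff.mp himg
    set ζ : ℂ := Complex.exp (2 * Real.pi * I / m) with hζ
    have hprim : IsPrimitiveRoot ζ m := Complex.isPrimitiveRoot_exp m (by omega)
    have hζn : ‖ζ‖ = 1 := by
      exact hprim.norm'_eq_one (by omega)
    set w : ℂ := ((ε / 2 : ℝ) : ℂ) with hw
    have hwn : ‖w‖ = ε / 2 := by
      rw [hw, Complex.norm_real, Real.norm_eq_abs, abs_of_pos (by positivity)]
    have hw0 : w ≠ 0 := by
      rw [← norm_pos_iff, hwn]; positivity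
    obtain ⟨z1, ⟨hz1U, hz1R⟩, hz1g⟩ := hball (show w ∈ ball 0 ε by
      rw [mem_ball_zero_iff, hwn]; linarith)
    obtain ⟨z2, ⟨hz2U, hz2R⟩, hz2g⟩ := hball (show ζ * w ∈ ball 0 ε by
      rw [mem_ball_zero_iff, norm_mul, hζn, hwn]; linarith)
    have heq : R.eval z1 = R.eval z2 := by
      rw [hz1R, hz2R, hz1g, hz2g, mul_pow, hprim.pow_eq_one, one_mul]
    have heq' : P.eval z1 = P.eval z2 := by
      simp only [hR, eval_sub, eval_C] at heq
      exact sub_left_injective heq
    have h12 := hinj hz1U hz2U heq'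
    rw [h12, hz2g] at hz1g
    have h1 : ζ = 1 := by
      have h3 : ζ * w = 1 * w := by rw [hz1g, one_mul]
      exact mul_right_cancel₀ hw0 h3
    exact hprim.ne_one (by omega) h1

lemma ev_eq_eval (p : ℝ[X]) (z : ℂ) : ev p z = (p.map (algebraMap ℝ ℂ)).eval z := by
  rw [ev, Polynomial.eval_map_algebraMap]

lemma ev_conj (p : ℝ[X]) (z : ℂ) : ev p (starRingEnd ℂ z) = starRingEnd ℂ (ev p z) :=
  Polynomial.aeval_conj p z

lemma continuous_ev (p : ℝ[X]) : Continuous (ev p) := by
  have : ev p = fun z => (p.map (algebraMap ℝ ℂ)).eval z := funext fun z => ev_eq_eval p z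
  rw [this]
  exact (p.map (algebraMap ℝ ℂ)).continuous

lemma hasDerivAt_ev (p : ℝ[X]) (z : ℂ) : HasDerivAt (ev p) (ev (derivative p) z) z :=
  Polynomial.hasDerivAt_aeval p z

lemma ev_zero (p : ℝ[X]) : ev p 0 = (p.coeff 0 : ℂ) := by
  rw [ev_eq_eval, ← Polynomial.coeff_zero_eq_eval_zero, Polynomial.coeff_map]
  rfl

lemma im_ne_zero {p : ℝ[X]} {ρ : ℝ} (hinj : InjOn (ev p) (ball (0 : ℂ) ρ)) {z : ℂ}
    (hz : z ∈ ball (0 : ℂ) ρ) (him : z.im ≠ 0) : (ev p z).im ≠ 0 := by
  intro h0
  have h1 : ev p (starRingEnd ℂ z) = ev p z := by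
    rw [ev_conj]
    exact Complex.conj_eq_iff_im.mpr h0
  have h2 : starRingEnd ℂ z ∈ ball (0 : ℂ) ρ := by
    rw [mem_ball_zero_iff] at hz ⊢
    rwa [Complex.norm_conj]
  have h3 := hinj h2 hz h1
  exact him (Complex.conj_eq_iff_im.mp h3)

theorem targetTR : TargetTR := by
  intro N p hp t ht
  obtain ⟨-, h0, h1, ρ, hρ, hinj⟩ := hp
  set U : Set ℂ := ball (0 : ℂ) ρ ∩ {z | 0 < z.im} with hU
  have hUc : IsPreconnected U := by
    apply Convex.isPreconnected
    exact (convex_ball _ _).inter (convex_halfSpace_im_gt 0)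
  have hcont : ContinuousOn (fun z => (ev p z).im) U :=
    (Complex.continuous_im.comp (continuous_ev p)).continuousOn
  -- a point with positive imaginary part
  have hder : HasDerivAt (ev p) 1 0 := by
    have := hasDerivAt_ev p 0
    rwa [ev_zero, coeff_derivative, h1, show ((1 * ((0:ℕ) + 1 : ℝ) : ℝ) : ℂ) = 1 by simp] at this
  have hpos : ∃ w ∈ U, 0 < (ev p w).im := by
    have hlim : Tendsto (fun s : ℝ => (ev p ((s : ℂ) * I)).im / s) (𝓝[>] 0) (𝓝 1) := by
      have h2 : HasDerivAt (fun s : ℝ => (s : ℂ) * I) I 0 := by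
        have := (Complex.ofRealCLM.hasDerivAt (x := (0:ℝ))).mul_const I
        simpa using this
      have h3 : HasDerivAt (fun s : ℝ => ev p ((s : ℂ) * I)) (1 * I) 0 := by
        apply HasDerivAt.comp_of_eq (h₂ := ev p) (h₂' := 1) (0:ℝ)
        · simpa using hder
        · exact h2
        · simp
      have h4 : HasDerivAt (fun s : ℝ => (ev p ((s : ℂ) * I)).im) 1 0 := by
        have := (Complex.imCLM.hasFDerivAt.comp_hasDerivAt (0:ℝ) h3)
        have e : Complex.imCLM (1 * I) = 1 := by simp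
        rw [e] at this
        exact this
      have h5 := h4.tendsto_slope
      have h6 : slope (fun s : ℝ => (ev p ((s : ℂ) * I)).im) 0 =
          fun s : ℝ => (ev p ((s : ℂ) * I)).im / s := by
        funext s
        rw [slope_def_field]
        simp [ev_zero, h0]
      rw [h6] at h5
      exact h5.mono_left (nhdsWithin_mono _ fun x hx => ne_of_gt hx)
    have h7 : ∀ᶠ s : ℝ in 𝓝[>] 0, 0 < (ev p ((s : ℂ) * I)).im / s :=
      hlim.eventually (lt_mem_nhds one_pos)
    have h8 : ∀ᶠ s : ℝ in 𝓝[>] 0, s ∈ Ioo (0:ℝ) ρ := Ioo_mem_nhdsGT (by linarith)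
    obtain ⟨s, hs1, hs2⟩ := (h7.and h8).exists
    refine ⟨(s : ℂ) * I, ⟨?_, ?_⟩, ?_⟩
    · rw [mem_ball_zero_iff, norm_mul, Complex.norm_I, mul_one, Complex.norm_real,
        Real.norm_eq_abs, abs_of_pos hs2.1]
      exact hs2.2
    · simpa using hs2.1
    · exact (div_pos_iff_of_pos_right hs2.1).mp hs1
  obtain ⟨w, hwU, hw⟩ := hpos
  have htU : pt t ∈ U := by
    constructor
    · rw [mem_ball_zero_iff, pt, Complex.norm_exp_ofReal_mul_I]
      exact hρ
    · simp only [Set.mem_ofPred_eq, pt, Complex.exp_ofReal_mul_I_im]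
      exact Real.sin_pos_of_pos_of_lt_pi ht.1 ht.2
  by_contra hneg
  rw [not_lt] at hneg
  have hmem : (0:ℝ) ∈ (fun z => (ev p z).im) '' U :=
    hUc.intermediate_value htU hwU hcont ⟨hneg, hw.le⟩
  obtain ⟨z, hzU, hz0⟩ := hmem
  have hzim : z.im ≠ 0 := ne_of_gt hzU.2
  exact im_ne_zero hinj hzU.1 hzim hz0

theorem targetLast : TargetLast := by
  intro N p hN hp
  obtain ⟨hdeg, h0, h1, ρ, hρ, hinj⟩ := hp
  by_cases hc : p.coeff N = 0
  · rw [hc]; simp
  have hnd : p.natDegree = N := le_antisymm hdeg (Polynomial.le_natDegree_of_ne_zero hc)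
  set P : ℂ[X] := p.map (algebraMap ℝ ℂ) with hP
  have hinjP : InjOn (fun z => P.eval z) (ball (0 : ℂ) ρ) := by
    intro a ha b hb hab
    apply hinj ha hb
    rw [ev_eq_eval, ev_eq_eval]
    exact hab
  set q : ℂ[X] := derivative P with hq
  have hqnd : q.natDegree = N - 1 := by
    have hPd : P.natDegree = N := by rw [hP, Polynomial.natDegree_map, hnd]
    rw [hq, Polynomial.natDegree_derivative, hPd]
  have hqlead : q.leadingCoeff = ((N : ℝ) * p.coeff N : ℝ) := by
    rw [Polynomial.leadingCoeff, hqnd, hq, Polynomial.coeff_derivative, hP, Polynomial.coeff_map,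
      Nat.sub_add_cancel hN]
    push_cast [Nat.cast_sub hN]
    simp
    ring
  have hq0 : q.eval 0 = 1 := by
    rw [← Polynomial.coeff_zero_eq_eval_zero, hq, Polynomial.coeff_derivative, hP,
      Polynomial.coeff_map, zero_add, h1]
    simp
  have hqne : q ≠ 0 := by
    rintro h
    rw [h] at hq0
    simp at hq0
  have hsplit : q.Splits := IsAlgClosed.splits q
  have hprod : q.eval 0 = q.leadingCoeff * (q.roots.map fun a => 0 - a).prod := by
    exact hsplit.eval_eq_prod_roots 0
  have hroots : ∀ r ∈ q.roots, 1 ≤ ‖r‖ := by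
    intro r hr
    by_contra hlt
    rw [not_le] at hlt
    have hr' : r ∈ ball (0:ℂ) ρ := by
      rw [mem_ball_zero_iff]; linarith
    have := derivative_ne_zero_of_injOn isOpen_ball hinjP hr'
    exact this ((Polynomial.mem_roots hqne).mp hr)
  have hge : 1 ≤ ‖(q.roots.map fun a => 0 - a).prod‖ := by
    have hgen : ∀ s : Multiset ℂ, (∀ r ∈ s, 1 ≤ ‖r‖) → 1 ≤ ‖(s.map fun a => 0 - a).prod‖ := by
      intro s
      induction s using Multiset.induction_on with
      | empty => intro _; simp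
      | cons a s ih =>
        intro h
        rw [Multiset.map_cons, Multiset.prod_cons, norm_mul, zero_sub, norm_neg]
        have ha := h a (Multiset.mem_cons_self _ _)
        have hs := ih fun r hr => h r (Multiset.mem_cons_of_mem hr)
        nlinarith
    exact hgen _ hroots
  rw [hq0] at hprod
  have hn := congrArg norm hprod
  rw [norm_one, norm_mul, hqlead, Complex.norm_real, Real.norm_eq_abs] at hn
  have ha : 0 ≤ |(N : ℝ) * p.coeff N| := abs_nonneg _
  nlinarith

end Pool.Agent.H74.KP
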