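import Pool.Agent.H74.KP.M0

/-! M5: the inequality (Ar) from Gronwall's area theorem. -/

set_option autoImplicit false

open Polynomial Complex Set Filter Topology Metric

namespace Pool.Agent.H74.KP

open Pool.Agent.H85.KP

/-! ### Power series on the unit disc -/

/-- `f` is the sum of the power series with coefficients `c` in the unit disc. -/
def PS (c : ℕ → ℂ) (f : ℂ → ℂ) : Prop := ∀ z ∈ ball (0 : ℂ) 1, HasSum (fun k => c k * z ^ k) (f z)

lemma PS.hasFPowerSeriesAt {c : ℕ → ℂ} {f : ℂ → ℂ} (h : PS c f) :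
    HasFPowerSeriesAt f (fun n => ContinuousMultilinearMap.mkPiRing ℂ (Fin n) (c n)) 0 := by
  refine ⟨ENNReal.ofReal (1 / 2), ?_, by simp, ?_⟩
  · have h1 := (h (1 / 2) (by rw [mem_ball_zero_iff]; norm_num)).summable
    have h2 : Summable fun n => ‖(ContinuousMultilinearMap.mkPiRing ℂ (Fin n) (c n))‖ *
        ((Real.toNNReal (1 / 2) : NNReal) : ℝ) ^ n := by
      have h3 := h1.norm
      refine h3.congr fun n => ?_
      rw [ContinuousMultilinearMap.norm_mkPiRing, norm_mul, norm_pow]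
      congr 2
      rw [Real.coe_toNNReal _ (by norm_num)]
      norm_num
    exact FormalMultilinearSeries.le_radius_of_summable _ h2
  · intro y hy
    have hy' : y ∈ ball (0:ℂ) 1 := by
      rw [Metric.eball_ofReal] at hy
      exact ball_subset_ball (by norm_num) hy
    have := h y hy'
    rw [zero_add]
    have e : (fun n => (ContinuousMultilinearMap.mkPiRing ℂ (Fin n) (c n)) fun _ => y) =
        fun k => c k * y ^ k := by
      funext n
      rw [ContinuousMultilinearMap.mkPiRing_apply]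
      simp [mul_comm]
    rw [e]
    exact this

lemma PS.unique {c d : ℕ → ℂ} {f : ℂ → ℂ} (hc : PS c f) (hd : PS d f) : c = d := by
  have h := hc.hasFPowerSeriesAt.eq_formalMultilinearSeries hd.hasFPowerSeriesAt
  funext n
  have h1 := congrFun h n
  have h2 := congrArg (fun φ : ContinuousMultilinearMap ℂ (fun _ : Fin n => ℂ) ℂ =>
    φ fun _ => 1) h1
  simpa [ContinuousMultilinearMap.mkPiRing_apply] using h2

lemma PS.mul {c d : ℕ → ℂ} {f g : ℂ → ℂ} (hc : PS c f) (hd : PS d g) :
    PS (fun n => ∑ kl ∈ Finset.HasAntidiagonal.antidiagonal n, c kl.1 * d kl.2)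
      (fun z => f z * g z) := by
  intro z hz
  have h1 := hc z hz
  have h2 := hd z hz
  have e1 := tsum_mul_tsum_eq_tsum_sum_antidiagonal_of_summable_norm h1.summable.norm
    h2.summable.norm
  have e2 := (summable_norm_sum_mul_antidiagonal_of_summable_norm h1.summable.norm
    h2.summable.norm).of_norm
  have e3 := e2.hasSum
  rw [← e1, h1.tsum_eq, h2.tsum_eq] at e3
  have e : (fun n => (∑ kl ∈ Finset.HasAntidiagonal.antidiagonal n, c kl.1 * d kl.2) * z ^ n) =
      fun n => ∑ kl ∈ Finset.HasAntidiagonal.antidiagonal n,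
        c kl.1 * z ^ kl.1 * (d kl.2 * z ^ kl.2) := by
    funext n
    rw [Finset.sum_mul]
    apply Finset.sum_congr rfl
    intro kl hkl
    rw [← Finset.HasAntidiagonal.mem_antidiagonal.mp hkl, pow_add]
    ring
  simp only
  rw [e]
  exact e3

lemma PS.conj {c : ℕ → ℂ} {f : ℂ → ℂ} (h : PS c f) :
    PS (fun k => starRingEnd ℂ (c k)) (fun z => starRingEnd ℂ (f (starRingEnd ℂ z))) := by
  intro z hz
  have hz' : starRingEnd ℂ z ∈ ball (0:ℂ) 1 := by
    rw [mem_ball_zero_iff] at hz ⊢
    rwa [Complex.norm_conj]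
  have h1 := h _ hz'
  have h2 := Complex.hasSum_conj'.mpr h1
  convert h2 using 2 with k
  simp

lemma PS.of_differentiableOn {f : ℂ → ℂ} (hf : DifferentiableOn ℂ f (ball 0 1)) :
    ∃ c : ℕ → ℂ, PS c f ∧ c 0 = f 0 ∧ c 1 = deriv f 0 := by
  refine ⟨fun n => (n.factorial : ℂ)⁻¹ * iteratedDeriv n f 0, ?_, by simp, by simp⟩
  intro z hz
  have := Complex.hasSum_taylorSeries_on_ball hf hz
  have e : (fun n : ℕ => (n.factorial : ℂ)⁻¹ * iteratedDeriv n f 0 * z ^ n) =
      fun n : ℕ => (n.factorial : ℂ)⁻¹ • (z - 0) ^ n • iteratedDeriv n f 0 := by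
    funext n
    simp only [smul_eq_mul, sub_zero]
    ring
  simp only
  rw [e]
  exact this

lemma PS.congr {c : ℕ → ℂ} {f g : ℂ → ℂ} (h : PS c f) (hfg : ∀ z ∈ ball (0:ℂ) 1, f z = g z) :
    PS c g := fun z hz => (hfg z hz) ▸ h z hz

/-- Analytic logarithm on a convex open set. -/
theorem exists_log {U : Set ℂ} (hU : IsOpen U) (hc : Convex ℝ U) (hne : U.Nonempty) {g : ℂ → ℂ}
    (hg : DifferentiableOn ℂ g U) (h0 : ∀ z ∈ U, g z ≠ 0) :
    ∃ h : ℂ → ℂ, DifferentiableOn ℂ h U ∧ ∀ z ∈ U, Complex.exp (h z) = g z := by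
  have hsc : IsSimplyConnected U := by
    have : ContractibleSpace U := hc.contractibleSpace hne
    exact (inferInstance : SimplyConnectedSpace U)
  obtain ⟨h, hhc, hhe⟩ := Complex.exists_continuousOn_eqOn_exp_comp hsc hU hg.continuousOn
    (by rintro ⟨z, hz, h1⟩; exact h0 z hz h1)
  refine ⟨h, ?_, fun z hz => hhe hz⟩
  intro z hz
  have hs : HasStrictDerivAt Complex.exp (Complex.exp (h z)) (h z) := Complex.hasStrictDerivAt_exp _
  have hne' : Complex.exp (h z) ≠ 0 := Complex.exp_ne_zero _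
  have hgz : HasDerivAt g (deriv g z) z := ((hg z hz).differentiableAt (hU.mem_nhds hz)).hasDerivAt
  have hcz : ContinuousAt h z := hhc.continuousAt (hU.mem_nhds hz)
  have hinv := hs.to_localInverse hne'
  have hev := hs.hasStrictFDerivAt_equiv hne' |>.eventually_left_inverse
  have hev2 : ∀ᶠ w in 𝓝 z, h w = (hs.localInverse _ _ _ hne') (g w) := by
    have h5 : ∀ᶠ w in 𝓝 z, (hs.localInverse _ _ _ hne') (Complex.exp (h w)) = h w :=
      hcz.eventually hev
    filter_upwards [h5, hU.mem_nhds hz] with w hw hwU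
    rw [← hw]
    congr 1
    exact (hhe hwU)
  have hinv' : DifferentiableAt ℂ (hs.localInverse _ _ _ hne') (g z) := by
    have := hinv.hasDerivAt.differentiableAt
    have e : Complex.exp (h z) = g z := hhe hz
    rw [← e]
    exact this
  have : DifferentiableAt ℂ (fun w => (hs.localInverse _ _ _ hne') (g w)) z :=
    hinv'.comp z hgz.differentiableAt
  exact (this.congr_of_eventuallyEq hev2).differentiableWithinAt

lemma ev_eq_divX_mul {p : ℝ[X]} (h0 : p.coeff 0 = 0) (z : ℂ) : ev p z = ev p.divX z * z := by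
  conv_lhs => rw [← Polynomial.divX_mul_X_add p, h0]
  simp [ev]

section
variable {p : ℝ[X]} {P Q : ℝ} {Phi : ℂ → ℂ}

/-- The square root of `(z/p(z)) (1 + (P + iQ) p(z))`. -/
lemma exists_Phi (h0 : p.coeff 0 = 0) (h1 : p.coeff 1 = 1)
    (hinj : InjOn (ev p) (Metric.ball (0 : ℂ) 1))
    (hom : ∀ z ∈ Metric.ball (0 : ℂ) 1, ev p z * (P + Q * Complex.I) ≠ -1) :
    ∃ Phi : ℂ → ℂ, DifferentiableOn ℂ Phi (ball 0 1) ∧ Phi 0 = 1 ∧ (∀ z, Phi z ≠ 0) ∧
      (∀ z ∈ ball (0:ℂ) 1, ev p.divX z ≠ 0) ∧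
      ∀ z ∈ ball (0:ℂ) 1, Phi z ^ 2 = (1 + (P + Q * Complex.I) * ev p z) / ev p.divX z := by
  have hp1 : ∀ z ∈ ball (0:ℂ) 1, ev p.divX z ≠ 0 := by
    intro z hz hzero
    rcases eq_or_ne z 0 with rfl | hne
    · rw [ev_zero, Polynomial.coeff_divX, zero_add, h1] at hzero
      simp at hzero
    · apply hne
      apply hinj hz (mem_ball_self one_pos)
      rw [ev_eq_divX_mul h0 z, hzero, zero_mul, ev_zero, h0]
      simp
  set Psi : ℂ → ℂ := fun z => (1 + (P + Q * Complex.I) * ev p z) / ev p.divX z with hPsi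
  have hPsid : DifferentiableOn ℂ Psi (ball 0 1) := by
    intro z hz
    apply DifferentiableAt.differentiableWithinAt
    apply DifferentiableAt.div _ (hasDerivAt_ev _ z).differentiableAt (hp1 z hz)
    exact ((hasDerivAt_ev p z).differentiableAt.const_mul _).const_add _
  have hPsi0 : ∀ z ∈ ball (0:ℂ) 1, Psi z ≠ 0 := by
    intro z hz
    apply div_ne_zero _ (hp1 z hz)
    intro h
    apply hom z hz
    linear_combination h
  obtain ⟨L, hLd, hL⟩ := exists_log isOpen_ball (convex_ball _ _)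
    ⟨0, mem_ball_self one_pos⟩ hPsid hPsi0
  refine ⟨fun z => Complex.exp ((L z - L 0) / 2), ?_, by simp, fun z => Complex.exp_ne_zero _,
    hp1, ?_⟩
  · exact ((hLd.sub_const _).div_const _).cexp
  · intro z hz
    have hz0 := hL z hz
    have h00 := hL 0 (mem_ball_self one_pos)
    have hPsi00 : Psi 0 = 1 := by
      rw [hPsi]
      simp only
      rw [ev_zero, ev_zero, Polynomial.coeff_divX, zero_add, h0, h1]
      simp
    rw [hPsi00] at h00
    simp only
    rw [← Complex.exp_nat_mul]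
    have e : ((2:ℕ) : ℂ) * ((L z - L 0) / 2) = L z - L 0 := by
      push_cast; ring
    rw [e, Complex.exp_sub, hz0, h00, div_one]

/-- The coefficients of the square root. -/
lemma coeffs {a : ℕ → ℂ} (h0 : p.coeff 0 = 0) (h1 : p.coeff 1 = 1)
    (hd : DifferentiableOn ℂ Phi (ball 0 1)) (hP0 : Phi 0 = 1)
    (hp1 : ∀ z ∈ ball (0:ℂ) 1, ev p.divX z ≠ 0)
    (hsq : ∀ z ∈ ball (0:ℂ) 1, Phi z ^ 2 = (1 + (P + Q * Complex.I) * ev p z) / ev p.divX z)
    (ha : PS a Phi) (ha0 : a 0 = Phi 0) (ha1 : a 1 = deriv Phi 0) :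
    (a 1).re = (P - p.coeff 2) / 2 ∧ (a 1).im = Q / 2 ∧
    (a 2).im = -(Q / 2) * (a 1).re ∧
    (a 3).im = (Q / 2) * ((a 1).re ^ 2 - (a 2).re) ∧
    (a 4).im = -(Q / 2) * ((a 1).re ^ 3 - 2 * (a 1).re * (a 2).re + (a 3).re) := by
  have hmem0 : (0:ℂ) ∈ ball (0:ℂ) 1 := mem_ball_self one_pos
  -- first coefficient
  have hPhid : HasDerivAt Phi (a 1) 0 := by
    rw [ha1]
    exact ((hd 0 hmem0).differentiableAt (isOpen_ball.mem_nhds hmem0)).hasDerivAt
  have hPsid : HasDerivAt (fun z => (1 + (P + Q * Complex.I) * ev p z) / ev p.divX z)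
      ((P + Q * Complex.I) - (p.coeff 2 : ℂ)) 0 := by
    have d1 := hasDerivAt_ev p 0
    have d2 := hasDerivAt_ev p.divX 0
    have d3 := ((d1.const_mul (P + Q * Complex.I)).const_add 1).div d2 (hp1 0 hmem0)
    have e : ((P + Q * Complex.I) - (p.coeff 2 : ℂ)) = ((P + Q * Complex.I) *
        ev (derivative p) 0 * ev p.divX 0 - (1 + (P + Q * Complex.I) * ev p 0) *
        ev (derivative p.divX) 0) / ev p.divX 0 ^ 2 := by
      rw [ev_zero, ev_zero, ev_zero, ev_zero, coeff_derivative, coeff_derivative,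
        Polynomial.coeff_divX, Polynomial.coeff_divX, h0]
      simp only [zero_add, h1]
      simp
    rw [e]
    exact d3
  have hsqd : HasDerivAt (fun z => Phi z ^ 2) (2 * a 1) 0 := by
    have := hPhid.pow 2
    have e : 2 * a 1 = ((2:ℕ) : ℂ) * Phi 0 ^ (2 - 1) * a 1 := by
      rw [hP0]; norm_num
    rw [e]
    exact this
  have heq : (fun z => Phi z ^ 2) =ᶠ[𝓝 0]
      fun z => (1 + (P + Q * Complex.I) * ev p z) / ev p.divX z := by
    filter_upwards [isOpen_ball.mem_nhds hmem0] with z hz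
    exact hsq z hz
  have ha1' : 2 * a 1 = (P + Q * Complex.I) - (p.coeff 2 : ℂ) :=
    hsqd.unique (hPsid.congr_of_eventuallyEq heq)
  have hre1 : (a 1).re = (P - p.coeff 2) / 2 := by
    have := congrArg Complex.re ha1'
    simp at this
    linarith
  have him1 : (a 1).im = Q / 2 := by
    have := congrArg Complex.im ha1'
    simp at this
    linarith
  -- real and imaginary parts of the coefficients
  have hconj := ha.conj
  have hA : PS (fun k => ((a k).re : ℂ))
      (fun z => (Phi z + starRingEnd ℂ (Phi (starRingEnd ℂ z))) / 2) := by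
    intro z hz
    have h2 := ((ha z hz).add (hconj z hz)).div_const 2
    have e : (fun k => ((a k).re : ℂ) * z ^ k) =
        fun k => (a k * z ^ k + starRingEnd ℂ (a k) * z ^ k) / 2 := by
      funext k
      rw [← add_mul, Complex.add_conj]
      push_cast
      ring
    simp only
    rw [e]
    exact h2
  have hD : PS (fun k => ((a k).im : ℂ))
      (fun z => (Phi z - starRingEnd ℂ (Phi (starRingEnd ℂ z))) / (2 * Complex.I)) := by
    intro z hz
    have h2 := ((ha z hz).sub (hconj z hz)).div_const (2 * Complex.I)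
    have e : (fun k => ((a k).im : ℂ) * z ^ k) =
        fun k => (a k * z ^ k - starRingEnd ℂ (a k) * z ^ k) / (2 * Complex.I) := by
      funext k
      rw [← sub_mul, Complex.sub_conj]
      have : Complex.I ≠ 0 := Complex.I_ne_zero
      push_cast
      field_simp
    simp only
    rw [e]
    exact h2
  have hprod := hA.mul hD
  have hprod' : PS (fun n => ∑ kl ∈ Finset.HasAntidiagonal.antidiagonal n,
      ((a kl.1).re : ℂ) * ((a kl.2).im : ℂ)) (fun z => (Q / 2 : ℂ) * z) := by
    refine hprod.congr fun z hz => ?_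
    have hz' : starRingEnd ℂ z ∈ ball (0:ℂ) 1 := by
      rw [mem_ball_zero_iff] at hz ⊢
      rwa [Complex.norm_conj]
    have s1 := hsq z hz
    have s2 := congrArg (starRingEnd ℂ) (hsq _ hz')
    rw [map_pow, map_div₀, map_add, map_mul, ← ev_conj, ← ev_conj, Complex.conj_conj] at s2
    simp only [map_one, map_add, map_mul, Complex.conj_ofReal, Complex.conj_I] at s2
    have hne := hp1 z hz
    have hI : Complex.I ≠ 0 := Complex.I_ne_zero
    have e1 : (Phi z + starRingEnd ℂ (Phi (starRingEnd ℂ z))) / 2 *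
        ((Phi z - starRingEnd ℂ (Phi (starRingEnd ℂ z))) / (2 * Complex.I)) =
        (Phi z ^ 2 - starRingEnd ℂ (Phi (starRingEnd ℂ z)) ^ 2) / (4 * Complex.I) := by
      field_simp
      ring
    rw [e1, s1, s2, ev_eq_divX_mul h0 z]
    field_simp
    ring
  have hlin : PS (fun n => if n = 1 then (Q / 2 : ℂ) else 0) (fun z => (Q / 2 : ℂ) * z) := by
    intro z _
    have := hasSum_ite_eq (1:ℕ) ((Q / 2 : ℂ) * z)
    have e : (fun k : ℕ => (if k = 1 then (Q / 2 : ℂ) else 0) * z ^ k) =
        fun k => if k = 1 then (Q / 2 : ℂ) * z else 0 := by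
      funext k
      split_ifs with hk
      · rw [hk, pow_one]
      · rw [zero_mul]
    simp only
    rw [e]
    exact this
  have huniq := hprod'.unique hlin
  have r0 : (a 0).re = 1 := by rw [ha0, hP0]; simp
  have i0 : (a 0).im = 0 := by rw [ha0, hP0]; simp
  have eq2 := congrFun huniq 2
  have eq3 := congrFun huniq 3
  have eq4 := congrFun huniq 4
  simp only [Finset.Nat.sum_antidiagonal_eq_sum_range_succ_mk, Finset.sum_range_succ,
    Finset.sum_range_zero] at eq2 eq3 eq4
  simp only [r0, i0] at eq2 eq3 eq4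
  norm_num at eq2 eq3 eq4
  have f2 : (a 2).im + (a 1).re * (a 1).im = 0 := by exact_mod_cast eq2
  have f3 : (a 3).im + (a 1).re * (a 2).im + (a 2).re * (a 1).im = 0 := by exact_mod_cast eq3
  have f4 : (a 4).im + (a 1).re * (a 3).im + (a 2).re * (a 2).im + (a 3).re * (a 1).im = 0 := by
    exact_mod_cast eq4
  have g2 : (a 2).im = -(Q / 2) * (a 1).re := by
    rw [him1] at f2; linarith
  have g3 : (a 3).im = (Q / 2) * ((a 1).re ^ 2 - (a 2).re) := by
    rw [him1, g2] at f3; linarith
  refine ⟨hre1, him1, g2, g3, ?_⟩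
  rw [him1, g2, g3] at f4
  linarith

end

theorem targetAr (hArea : TargetArea) : TargetAr := by
  intro p P Q h0 h1 hinj _ hom
  obtain ⟨Phi, hd, hP0, hne, hp1, hsq⟩ := exists_Phi h0 h1 hinj hom
  obtain ⟨a, ha, ha0, ha1⟩ := PS.of_differentiableOn hd
  obtain ⟨c1, c2, c3, c4, c5⟩ := coeffs h0 h1 hd hP0 hp1 hsq ha ha0 ha1
  set c : ℕ → ℂ := fun k => if k % 2 = 1 then a ((k + 1) / 2) else 0 with hc
  set H : ℂ → ℂ := fun z => if z = 0 then 0 else (Phi (z ^ 2) - 1) / z with hH
  have hsum : ∀ z ∈ ball (0:ℂ) 1, HasSum (fun k => c k * z ^ k) (H z) := by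
    intro z hz
    have hodd : Function.Injective fun j : ℕ => 2 * j + 1 := fun i j hij => by
      simp only at hij; omega
    have hout : ∀ k ∉ Set.range (fun j : ℕ => 2 * j + 1), c k * z ^ k = 0 := by
      intro k hk
      have : k % 2 ≠ 1 := by
        intro h
        exact hk ⟨k / 2, by simp only; omega⟩
      rw [hc]; simp only
      rw [if_neg this, zero_mul]
    rw [← hodd.hasSum_iff hout]
    rcases eq_or_ne z 0 with rfl | hz0
    · have e : ((fun k => c k * (0:ℂ) ^ k) ∘ fun j : ℕ => 2 * j + 1) = fun _ => 0 := by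
        funext j
        simp
      rw [e, hH]
      simp only [if_true]
      exact hasSum_zero
    · have hz2 : z ^ 2 ∈ ball (0:ℂ) 1 := by
        rw [mem_ball_zero_iff] at hz ⊢
        rw [norm_pow]
        have := norm_nonneg z
        nlinarith
      have h2 := (hasSum_nat_add_iff' 1).mpr (ha _ hz2)
      rw [Finset.sum_range_one, pow_zero, mul_one, ha0, hP0] at h2
      have h3 := h2.div_const z
      have e : ((fun k => c k * z ^ k) ∘ fun j : ℕ => 2 * j + 1) =
          fun j => a (j + 1) * (z ^ 2) ^ (j + 1) / z := by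
        funext j
        simp only [Function.comp]
        rw [hc]; simp only
        rw [if_pos (by omega), show (2 * j + 1 + 1) / 2 = j + 1 by omega, ← pow_mul,
          show 2 * (j + 1) = (2 * j + 1) + 1 by ring, pow_succ z (2 * j + 1)]
        field_simp
      rw [e, hH]
      simp only [if_neg hz0]
      exact h3
  have hG : ∀ z : ℂ, z ≠ 0 → 1 / z + H z = Phi (z ^ 2) / z := by
    intro z hz
    rw [hH]
    simp only [if_neg hz]
    field_simp
    ring
  have hinjG : InjOn (fun z : ℂ => 1 / z + H z) (Metric.ball (0 : ℂ) 1 \ {0}) := by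
    have hsqm : ∀ z ∈ Metric.ball (0 : ℂ) 1, z ^ 2 ∈ Metric.ball (0 : ℂ) 1 := by
      intro z hz
      rw [mem_ball_zero_iff] at hz ⊢
      rw [norm_pow]
      have := norm_nonneg z
      nlinarith
    have hG2 : ∀ z ∈ Metric.ball (0 : ℂ) 1 \ {0}, (Phi (z ^ 2) / z) ^ 2 =
        1 / ev p (z ^ 2) + (P + Q * Complex.I) := by
      intro z hz
      have hz0 : z ≠ 0 := hz.2
      have hz2 := hsqm z hz.1
      have hdiv := hp1 _ hz2
      rw [div_pow, hsq _ hz2, ev_eq_divX_mul h0 (z ^ 2)]
      field_simp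
    have hevne : ∀ z ∈ Metric.ball (0 : ℂ) 1 \ {0}, ev p (z ^ 2) ≠ 0 := by
      intro z hz
      rw [ev_eq_divX_mul h0 (z ^ 2)]
      exact mul_ne_zero (hp1 _ (hsqm z hz.1)) (pow_ne_zero _ hz.2)
    intro x hx y hy hxy
    simp only at hxy
    rw [hG x hx.2, hG y hy.2] at hxy
    have h2 : (Phi (x ^ 2) / x) ^ 2 = (Phi (y ^ 2) / y) ^ 2 := by rw [hxy]
    rw [hG2 x hx, hG2 y hy] at h2
    have h3 : ev p (x ^ 2) = ev p (y ^ 2) := by
      have h4 := add_right_cancel h2
      rwa [one_div, one_div, inv_inj] at h4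
    have h5 := hinj (hsqm x hx.1) (hsqm y hy.1) h3
    rcases sq_eq_sq_iff_eq_or_eq_neg.mp h5 with h6 | h6
    · exact h6
    · exfalso
      rw [h6, neg_sq] at hxy
      have hy0 : y ≠ 0 := hy.2
      have h7 := hne (y ^ 2)
      rw [div_neg] at hxy
      have h8 : Phi (y ^ 2) / y = 0 := by
        have : (2:ℂ) * (Phi (y ^ 2) / y) = 0 := by linear_combination -hxy
        simpa using this
      rw [div_eq_zero_iff] at h8
      rcases h8 with h8 | h8
      · exact h7 h8
      · exact hy0 h8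
  have key := hArea c H hsum hinjG 8
  refine ⟨(a 2).re, (a 3).re, ?_⟩
  have hn : ∀ w : ℂ, ‖w‖ ^ 2 = w.re ^ 2 + w.im ^ 2 := by
    intro w
    rw [← Complex.normSq_eq_norm_sq, Complex.normSq_apply]
    ring
  simp only [Finset.sum_range_succ, Finset.sum_range_zero, hc] at key
  norm_num [hn] at key
  rw [c1] at c3 c4 c5 key
  rw [c2, c3, c4, c5] at key
  have hr4 : 0 ≤ (a 4).re ^ 2 := sq_nonneg _
  nlinarith [key, hr4]

end Pool.Agent.H74.KP
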